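import Mathlib
import Pool.Agent.helper5.AS.Stmt
import Pool.Agent.helper49.QA.Classical
import Pool.Agent.helper49.QA.FinAsm

/-!
# MP_183ab4_al: quantising argument-shift subalgebras of `Z_2`-contractions

Let `(g, θ)` be a finite direct sum of symmetric pairs of classical type: `sl_n` with an inner or
an outer involution, `so_n` or `sp_n` with the conjugation by a matrix, or the product of two
copies of one of these algebras with the exchange of the factors.  Let `k = g_0 ⋉ g_1` be the
`Z_2`-contraction.  For every regular `ξ ∈ k^*` the argument shift subalgebra `F_ξ(S(k)^k)` lifts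
to a commutative subalgebra of `U(k)`.
-/

set_option autoImplicit false

namespace Pool.Agent.Results.MP_183ab4_al.ClassicalContractions

open Pool.Agent.helper5.ASQ Pool.Agent.helper49.QAS

theorem result (𝕜 : Type*) [Field 𝕜] [IsAlgClosed 𝕜] [CharZero 𝕜] (g : Type*) [LieRing g]
    [LieAlgebra 𝕜 g] (θ : Invol 𝕜 g) (hg : IsClassical θ) (k : Type*) [LieRing k]
    [LieAlgebra 𝕜 k] (e : g ≃ₗ[𝕜] k) (he : IsContraction θ e) (ξ : k →ₗ[𝕜] 𝕜)
    (hξ : IsRegular ξ) : ShiftLifts ξ :=
  Pool.Agent.helper49.QA.shiftLifts_classical hg he ξ hξ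

end Pool.Agent.Results.MP_183ab4_al.ClassicalContractions
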