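import Mathlib
import Pool.Agent.helper5.AS.Stmt
import Pool.Agent.helper5.AS.Bridge

/-!
# MP_183ab4_al: quantising argument-shift subalgebras of `Z_2`-contractions

Let `g` be semisimple, `θ` an involution, `k = g_0 ⋉ g_1` the contraction and `Z` the subalgebra
of the Poisson centre `S(k)^k` generated by the invariants of degree at most one in `g_0`.  For
every `ξ ∈ k^*` the argument shift subalgebra `F_ξ(Z)` lifts to a commutative subalgebra of
`U(k)`.  If `Z` is the whole Poisson centre (which is the case for the quasi-split involutions)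
this is a lift of `F_ξ(S(k)^k)`.
-/

set_option autoImplicit false

namespace Pool.Agent.Results.MP_183ab4_al.FirstOrder

open Pool.Agent.helper5.ASQ

theorem result (𝕜 : Type*) [Field 𝕜] [CharZero 𝕜] (g : Type*) [LieRing g] [LieAlgebra 𝕜 g]
    [FiniteDimensional 𝕜 g] [LieAlgebra.IsSemisimple 𝕜 g] (θ : Invol 𝕜 g)
    (k : Type*) [LieRing k] [LieAlgebra 𝕜 k] (e : g ≃ₗ[𝕜] k) (he : IsContraction θ e)
    (ξ : k →ₗ[𝕜] 𝕜) :
    FirstShiftLifts (odd θ e) ξ ∧ (FirstGenerated (odd θ e) → ShiftLifts ξ) := by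
  have : FiniteDimensional 𝕜 k := e.finiteDimensional
  have h := Pool.Agent.helper5.AS.lifts_fc (Pool.Agent.helper5.AS.ad_injective θ he)
    (fun x v hv => Pool.Agent.helper5.AS.odd_ideal θ he x hv)
    (fun v hv v' hv' => Pool.Agent.helper5.AS.odd_abelian θ he hv hv') ξ
  have h1 : Lifts (shiftAlg ξ (firstCentre (odd θ e) : Set (Sy 𝕜 k))) := by
    rw [Pool.Agent.helper5.AS.firstCentreQ, Pool.Agent.helper5.AS.shiftAlgQ]
    exact Pool.Agent.helper5.AS.liftsQ h
  refine ⟨h1, fun hZ => ?_⟩
  unfold FirstGenerated at hZ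
  unfold ShiftLifts
  rw [← hZ]
  exact h1

end Pool.Agent.Results.MP_183ab4_al.FirstOrder
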